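import Pool.Agent.Work.MP_b29d7f_ns.Interface3

/-! GEO1: the simple geometric facts -/

set_option autoImplicit false

open Finset Filter Topology MeasureTheory NumberField IsDedekindDomain

namespace Pool.NS

open Pool.Agent.Work.MP_b29d7f_nt.Ded

namespace GEO1_

theorem alg_inj (K : Type) [Field K] [NumberField K] (g : 𝓞 K) (R : Type) [CommRing R]
    [Algebra (𝓞 K) R] [Algebra R K] (hS : IsSInt K g R) :
    ∀ x : R, x ≠ 0 → algebraMap R K x ≠ 0 := by
  intro x hx h0
  have htow := hS.tower
  have haw := hS.away
  obtain ⟨⟨a, s⟩, hs⟩ := IsLocalization.surj (Submonoid.powers g) x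
  simp only at hs
  have h1 : algebraMap R K (x * algebraMap (𝓞 K) R s) = algebraMap R K (algebraMap (𝓞 K) R a) := by
    rw [hs]
  rw [map_mul, h0, zero_mul, ← IsScalarTower.algebraMap_apply (𝓞 K) R K] at h1
  have h2 : a = 0 := by
    have h3 : Function.Injective (algebraMap (𝓞 K) K) := RingOfIntegers.coe_injective
    apply h3
    rw [← h1, map_zero]
  rw [h2, map_zero] at hs
  have hu : IsUnit (algebraMap (𝓞 K) R s) := IsLocalization.map_units R s
  exact hx (hu.mul_left_eq_zero.1 hs)

theorem norm_em {K : Type} [Field K] [NumberField K] (w : InfinitePlace K) (x : K) :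
    ‖(WithLp.toLp 2 fun i : Fin w.mult => if (i : ℕ) = 0 then (w.embedding x).re
        else (w.embedding x).im : E w.mult)‖ = w x := by
  have hw : w x = ‖w.embedding x‖ := by
    rw [← InfinitePlace.apply w.embedding x, InfinitePlace.mk_embedding]
  rw [hw, EuclideanSpace.norm_eq]
  have key : ∀ k : ℕ, (k = 1 ∧ (w.embedding x).im = 0) ∨ k = 2 →
      √(∑ i : Fin k, ‖(if (i : ℕ) = 0 then (w.embedding x).re else (w.embedding x).im)‖ ^ 2)
        = ‖w.embedding x‖ := by
    rintro k (⟨rfl, him⟩ | rfl)
    · rw [Fin.sum_univ_one]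
      simp only [Fin.val_zero, if_true]
      rw [Complex.norm_eq_sqrt_sq_add_sq, him]
      simp
    · rw [Fin.sum_univ_two]
      simp only [Fin.val_zero, if_true, Fin.val_one, one_ne_zero, if_false]
      rw [Complex.norm_eq_sqrt_sq_add_sq]
      simp
  apply key
  rcases w.isReal_or_isComplex with h | h
  · left
    refine ⟨h.mult_eq_one, ?_⟩
    have h1 := InfinitePlace.isReal_iff.1 h
    have h2 := h1.coe_embedding_apply x
    have h3 := congrArg Complex.im h2
    rw [Complex.ofReal_im] at h3
    exact h3.symm
  · right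
    exact h.mult_eq_two

end GEO1_

open GEO1_

theorem stmt_GEO1 : Stmt_GEO1 := by
  intro K _ _ g hg R _ _ _ hS
  have hinj := alg_inj K g R hS
  refine ⟨?_, ?_, ?_, ?_, ?_, hinj, ?_, ?_, ?_⟩
  · exact InfinitePlace.sum_mult_eq
  · exact (inferInstance : Nonempty (InfinitePlace K))
  · intro v
    change InfinitePlace.mult v = 1 ∨ InfinitePlace.mult v = 2
    rcases InfinitePlace.isReal_or_isComplex v with h | h
    · exact Or.inl h.mult_eq_one
    · exact Or.inr h.mult_eq_two
  · intro t
    change 0 < Real.log (Nm (t.1 : HeightOneSpectrum (𝓞 K)).asIdeal)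
    apply Real.log_pos
    have := one_lt_Nm t.1.isPrime t.1.ne_bot
    exact_mod_cast this
  · intro x w
    exact norm_em w (algebraMap R K x)
  · intro t
    change WithZero.log (t.1.valuation K (algebraMap R K 0)) = 0
    rw [map_zero, map_zero]
    rfl
  · intro t x
    change WithZero.log (t.1.valuation K (algebraMap R K (-x)))
      = WithZero.log (t.1.valuation K (algebraMap R K x))
    rw [map_neg, Valuation.map_neg]
  · intro t x y hx hy hxy
    change WithZero.log (t.1.valuation K (algebraMap R K (x + y)))
      ≤ max (WithZero.log (t.1.valuation K (algebraMap R K x)))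
        (WithZero.log (t.1.valuation K (algebraMap R K y)))
    have h1 : t.1.valuation K (algebraMap R K x) ≠ 0 := (Valuation.ne_zero_iff _).2 (hinj x hx)
    have h2 : t.1.valuation K (algebraMap R K y) ≠ 0 := (Valuation.ne_zero_iff _).2 (hinj y hy)
    have h3 : t.1.valuation K (algebraMap R K (x + y)) ≠ 0 :=
      (Valuation.ne_zero_iff _).2 (hinj _ hxy)
    have h4 : t.1.valuation K (algebraMap R K (x + y))
        ≤ max (t.1.valuation K (algebraMap R K x)) (t.1.valuation K (algebraMap R K y)) := by
      rw [map_add]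
      exact Valuation.map_add _ _ _
    rcases le_max_iff.1 h4 with h5 | h5
    · exact le_max_of_le_left ((WithZero.log_le_log h3 h1).2 h5)
    · exact le_max_of_le_right ((WithZero.log_le_log h3 h2).2 h5)

end Pool.NS
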