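import Pool.Agent.Work.MP_b29d7f_ns.Interface3

/-! MKC: upper bound for the number of integers in a box -/

set_option autoImplicit false

open Finset Filter Topology MeasureTheory NumberField IsDedekindDomain

namespace Pool.NS

open Pool.Agent.Work.MP_b29d7f_nt.Ded

namespace MKC_

variable {K : Type} [Field K] [NumberField K]

/-- coordinates of the embeddings -/
noncomputable def cd (x : K) (j : Σ w : InfinitePlace K, Fin w.mult) : ℝ :=
  if (j.2 : ℕ) = 0 then (j.1.embedding x).re else (j.1.embedding x).im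

theorem w_eq (w : InfinitePlace K) (x : K) : w x = ‖w.embedding x‖ := by
  rw [← InfinitePlace.apply w.embedding x, InfinitePlace.mk_embedding]

theorem cd_sub (x y : K) (j : Σ w : InfinitePlace K, Fin w.mult) :
    cd (x - y) j = cd x j - cd y j := by
  unfold cd
  rw [map_sub]
  split_ifs
  · exact Complex.sub_re _ _
  · exact Complex.sub_im _ _

theorem abs_cd_le (x : K) (j : Σ w : InfinitePlace K, Fin w.mult) : |cd x j| ≤ j.1 x := by
  unfold cd
  rw [w_eq]
  split_ifs
  · exact Complex.abs_re_le_norm _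
  · exact Complex.abs_im_le_norm _

theorem w_lt (w : InfinitePlace K) (x : K) (s : ℝ) (hs : 0 < s)
    (h : ∀ i : Fin w.mult, |cd x ⟨w, i⟩| < s) : w x < 2 * s := by
  rw [w_eq]
  have hre : |(w.embedding x).re| < s := by
    have h0 : 0 < w.mult := InfinitePlace.mult_pos
    have h1 := h ⟨0, h0⟩
    unfold cd at h1
    simpa using h1
  have him : |(w.embedding x).im| < s := by
    rcases w.isReal_or_isComplex with hr | hc
    · have h1 := InfinitePlace.isReal_iff.1 hr
      have h2 := h1.coe_embedding_apply x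
      have h3 := congrArg Complex.im h2
      rw [Complex.ofReal_im] at h3
      rw [← h3, abs_zero]
      exact hs
    · have h0 : 1 < w.mult := by rw [hc.mult_eq_two]; norm_num
      have h1 := h ⟨1, h0⟩
      unfold cd at h1
      simpa using h1
  calc ‖w.embedding x‖ ≤ |(w.embedding x).re| + |(w.embedding x).im| :=
        Complex.norm_le_abs_re_add_abs_im _
    _ < s + s := add_lt_add hre him
    _ = 2 * s := by ring

theorem one_le_prod {x : 𝓞 K} (hx : x ≠ 0) :
    1 ≤ ∏ w : InfinitePlace K, w (x : K) ^ w.mult := by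
  rw [InfinitePlace.prod_eq_abs_norm, ← Algebra.coe_norm_int, ← Int.cast_one, ← Int.cast_abs,
    Rat.cast_intCast, Int.cast_le]
  exact Int.one_le_abs (Algebra.norm_ne_zero_iff.mpr hx)

theorem finite_box (ρ : InfinitePlace K → ℝ) :
    {x : 𝓞 K | ∀ w : InfinitePlace K, w (x : K) ≤ ρ w}.Finite := by
  obtain ⟨B, hB⟩ : ∃ B : ℝ, ∀ w, ρ w ≤ B := by
    obtain ⟨B, hB⟩ := (Set.finite_range ρ).bddAbove
    exact ⟨B, fun w => hB ⟨w, rfl⟩⟩
  have h1 := Embeddings.finite_of_norm_le K ℂ B
  have h2 : Function.Injective (fun x : 𝓞 K => (x : K)) := RingOfIntegers.coe_injective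
  refine Set.Finite.subset (Set.Finite.preimage h2.injOn h1) ?_
  intro x hx
  refine ⟨x.isIntegral_coe, fun φ => ?_⟩
  have h3 := hx (InfinitePlace.mk φ)
  rw [InfinitePlace.apply] at h3
  exact le_trans h3 (hB _)

end MKC_

open MKC_

theorem stmt_MKC : Stmt_MKC := by
  classical
  intro K _ _
  set D : ℕ := Fintype.card (Σ w : InfinitePlace K, Fin w.mult) with hD
  have hDs : D = ∑ w : InfinitePlace K, w.mult := by
    rw [hD, Fintype.card_sigma]
    simp
  have hDpos : 0 < D := by
    rw [hDs]
    obtain ⟨w⟩ := (inferInstance : Nonempty (InfinitePlace K))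
    exact lt_of_lt_of_le (InfinitePlace.mult_pos (w := w))
      (Finset.single_le_sum (f := fun w : InfinitePlace K => w.mult) (fun _ _ => Nat.zero_le _)
        (Finset.mem_univ w))
  refine ⟨7 ^ D, by positivity, ?_⟩
  intro ρ hρ
  refine ⟨finite_box ρ, ?_⟩
  set B := {x : 𝓞 K | ∀ w : InfinitePlace K, w (x : K) ≤ ρ w} with hB
  set Pr := ∏ w, ρ w ^ w.mult with hPi
  have hPipos : 0 < Pr := Finset.prod_pos fun w _ => pow_pos (hρ w) _
  have h7 : (1 : ℝ) ≤ 7 ^ D := one_le_pow₀ (by norm_num)
  rcases lt_or_ge Pr 1 with hlt | hge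
  · -- only zero
    have hsub : B ⊆ {0} := by
      intro x hx
      by_contra hne
      have h1 := one_le_prod (K := K) (x := x) (by simpa using hne)
      have h2 : ∏ w : InfinitePlace K, w (x : K) ^ w.mult ≤ Pr := by
        apply Finset.prod_le_prod
        · intro w _; positivity
        · intro w _
          exact pow_le_pow_left₀ (apply_nonneg _ _) (hx w) _
      linarith
    have h3 : B.ncard ≤ 1 := by
      calc B.ncard ≤ ({0} : Set (𝓞 K)).ncard := Set.ncard_le_ncard hsub (Set.finite_singleton _)
        _ = 1 := Set.ncard_singleton _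
    have h4 : ((B.ncard : ℕ) : ℝ) ≤ 1 := by exact_mod_cast h3
    nlinarith
  · set q : ℝ := Pr ^ ((1 : ℝ) / D) with hq
    have hq1 : 1 ≤ q := Real.one_le_rpow hge (by positivity)
    have hqD : q ^ D = Pr := by
      rw [hq, ← Real.rpow_natCast, ← Real.rpow_mul hPipos.le]
      rw [one_div_mul_cancel (by positivity : (D : ℝ) ≠ 0), Real.rpow_one]
    have hqpos : 0 < q := lt_of_lt_of_le one_pos hq1
    set M : ℕ := ⌊2 * q⌋₊ + 1 with hM
    set s : InfinitePlace K → ℝ := fun w => ρ w / (2 * q) with hs
    have hspos : ∀ w, 0 < s w := fun w => by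
      rw [hs]; exact div_pos (hρ w) (by linarith)
    set F : 𝓞 K → ((Σ w : InfinitePlace K, Fin w.mult) → ℤ) :=
      fun x j => ⌊cd (x : K) j / s j.1⌋ with hF
    set T : Finset ((Σ w : InfinitePlace K, Fin w.mult) → ℤ) :=
      Fintype.piFinset fun _ => Finset.Icc (-(M : ℤ)) M with hT
    have hmaps : ∀ x ∈ B, F x ∈ (T : Set _) := by
      intro x hx
      rw [Finset.mem_coe, hT, Fintype.mem_piFinset]
      intro j
      rw [Finset.mem_Icc]
      have h1 : |cd (x : K) j / s j.1| ≤ 2 * q := by
        rw [abs_div, abs_of_pos (hspos j.1), div_le_iff₀ (hspos j.1)]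
        have h2 := le_trans (abs_cd_le (x : K) j) (hx j.1)
        have h3 : 2 * q * s j.1 = ρ j.1 := by
          rw [hs]; field_simp
        rw [h3]; exact h2
      have h4 : (2 * q) < (M : ℝ) := by
        rw [hM]; push_cast; exact Nat.lt_floor_add_one _
      rw [abs_le] at h1
      constructor
      · apply Int.le_floor.2
        push_cast
        linarith [h1.1]
      · have h5 : (⌊cd (x : K) j / s j.1⌋ : ℝ) ≤ M := by
          linarith [Int.floor_le (cd (x : K) j / s j.1), h1.2]
        exact_mod_cast h5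
    have hinj : Set.InjOn F B := by
      intro x hx y hy hxy
      by_contra hne
      have hsub : x - y ≠ 0 := sub_ne_zero.2 hne
      have h1 := one_le_prod (K := K) hsub
      have hw : ∀ w : InfinitePlace K, w ((x - y : 𝓞 K) : K) < ρ w / q := by
        intro w
        have h2 : w ((x - y : 𝓞 K) : K) < 2 * s w := by
          apply w_lt w _ _ (hspos w)
          intro i
          have h3 : ⌊cd (x : K) ⟨w, i⟩ / s w⌋ = ⌊cd (y : K) ⟨w, i⟩ / s w⌋ :=
            congrFun hxy ⟨w, i⟩
          have h4 := Int.abs_sub_lt_one_of_floor_eq_floor h3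
          have h5 : ((x - y : 𝓞 K) : K) = (x : K) - (y : K) := by push_cast; rfl
          rw [h5, cd_sub]
          rw [← sub_div, abs_div, abs_of_pos (hspos w), div_lt_one (hspos w)] at h4
          exact h4
        have h6 : 2 * s w = ρ w / q := by rw [hs]; field_simp
        rw [← h6]; exact h2
      have h7 : ∏ w : InfinitePlace K, w ((x - y : 𝓞 K) : K) ^ w.mult
          < ∏ w : InfinitePlace K, (ρ w / q) ^ w.mult := by
        apply Finset.prod_lt_prod_of_nonempty
        · intro w _
          apply pow_pos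
          exact InfinitePlace.pos_iff.2 (RingOfIntegers.coe_ne_zero_iff.2 hsub)
        · intro w _
          exact pow_lt_pow_left₀ (hw w) (apply_nonneg _ _) InfinitePlace.mult_ne_zero
        · exact Finset.univ_nonempty
      have h8 : ∏ w : InfinitePlace K, (ρ w / q) ^ w.mult = 1 := by
        simp_rw [div_pow]
        rw [Finset.prod_div_distrib, Finset.prod_pow_eq_pow_sum, ← hDs, hqD]
        exact div_self hPipos.ne'
      linarith
    have hcard : B.ncard ≤ T.card := by
      rw [← Set.ncard_coe_finset]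
      exact Set.ncard_le_ncard_of_injOn F hmaps hinj (Finset.finite_toSet T)
    have hTc : (T.card : ℝ) ≤ 7 ^ D * Pr := by
      rw [hT, Fintype.card_piFinset]
      simp only [Int.card_Icc, Finset.prod_const, Finset.card_univ]
      rw [← hD, ← hqD, ← mul_pow]
      push_cast
      apply pow_le_pow_left₀ (by positivity)
      have h9 : ((M : ℤ) + 1 - -(M : ℤ)).toNat = 2 * M + 1 := by omega
      rw [h9]
      push_cast
      have h10 : (M : ℝ) ≤ 2 * q + 1 := by
        rw [hM]; push_cast
        linarith [Nat.floor_le (by positivity : 0 ≤ 2 * q)]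
      linarith
    have h11 : ((B.ncard : ℕ) : ℝ) ≤ T.card := by exact_mod_cast hcard
    calc ((B.ncard : ℕ) : ℝ) ≤ 7 ^ D * Pr := le_trans h11 hTc
      _ ≤ 7 ^ D * (1 + Pr) := by nlinarith

end Pool.NS
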